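import Pool.Agent.X246.SNB.Main
import Pool.Agent.H78R3.TSV.Mem
import Pool.Agent.H612.AR

/-!
# Testing an upper bound on the spectral norm of a tensor is `∀ℝ`-complete

This answers Q1 of MP_50cd9e_lc affirmatively.

Let `g₁ = … = g_m = 0` be a system of homogeneous quadratic equations on `ℝⁿ`, each with at most
three terms, obtained from a system of constraints of real numbers in the unit ball; add a chain of
polynomially many equations `u₀ = x₀/8`, `u_{i+1} x₀ = u_i²`, so that a solution has a last element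
`u` which is nonzero but doubly exponentially small. For a large integer `C` the form
`2C (|x|²|y|² + ⟨x,y⟩²) - m ∑ g_l(x,y)² + 4 (x_u y_u)²` is a sum `∑_k A_k(x,y)²` of squares of
explicit symmetric bilinear forms with integer coefficients. If the system has a nonzero solution
`x` then this form exceeds `4C |x|⁴` at `(x, x)`. If it has none then, by the gap theorem, the
errors of the equations are at least doubly exponentially small and therefore dominate the bonus
term `4 x_u⁴` everywhere; polarization and the term `2C (|x|²|y|² + ⟨x,y⟩²)` take care of the pairs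
`(x, y)` with `y ≠ ± x`. So the spectral norm of the tensor `T(x,y,z) = ∑_k z_k A_k(x,y)` exceeds
`σ = √(4C)`, an integer, if and only if the system is solvable.
-/

set_option autoImplicit false

namespace Pool.Agent.Results.MP_50cd9e_lc.SpectralNormBoundComplete

open Finset Pool.Agent.NPC Pool.Agent.NPC.ER Pool.Agent.H78R3.TSV Pool.Agent.X246.SNB

/-- `T(x, y, z)`. -/
noncomputable def triv {d : ℕ} (t : Fin d → Fin d → Fin d → ℝ) (x y z : EuclideanSpace ℝ (Fin d)) :
    ℝ := ∑ i, ∑ j, ∑ k, t i j k * x i * y j * z k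

/-- The spectral norm of a tensor: the maximum of `|T(x, y, z)|` over all unit vectors. -/
noncomputable def spectralNorm {d : ℕ} (t : Fin d → Fin d → Fin d → ℝ) : ℝ :=
  sSup {r | ∃ x y z : EuclideanSpace ℝ (Fin d), ‖x‖ = 1 ∧ ‖y‖ = 1 ∧ ‖z‖ = 1 ∧ r = |triv t x y z|}

/-- The decision problem SPECTRAL-NORM-BOUND. The input is a `d × d × d` tensor with rational
entries (a nested list; `d` is its length) and a positive rational number `σ`; the question is
whether the spectral norm of the tensor is at most `σ`. -/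
def SpectralNormBound (q : List (List (List ℚ)) × ℚ) : Prop :=
  IsCube q.1 ∧ 0 < q.2 ∧
    spectralNorm (fun i j k : Fin q.1.length => ((entry q.1 i j k : ℚ) : ℝ)) ≤ (q.2 : ℝ)

/-- The decision problem SPECTRAL-NORM-EXCEED: on the same inputs, whether the spectral norm of the
tensor is larger than `σ`. -/
def SpectralNormExceed (q : List (List (List ℚ)) × ℚ) : Prop :=
  IsCube q.1 ∧ 0 < q.2 ∧
    (q.2 : ℝ) < spectralNorm (fun i j k : Fin q.1.length => ((entry q.1 i j k : ℚ) : ℝ))

/-- A version with vectors indexed by all natural numbers. -/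
def Exc (d : ℕ) (t : ℕ → ℕ → ℕ → ℝ) (σ : ℝ) : Prop :=
  ∃ x y z : ℕ → ℝ, ∑ i ∈ range d, x i ^ 2 = 1 ∧ ∑ i ∈ range d, y i ^ 2 = 1 ∧
    ∑ i ∈ range d, z i ^ 2 = 1 ∧
    σ < ∑ i ∈ range d, ∑ j ∈ range d, ∑ k ∈ range d, t i j k * x i * y j * z k

theorem abs_triv_le {d : ℕ} (t : Fin d → Fin d → Fin d → ℝ) (x y z : EuclideanSpace ℝ (Fin d))
    (hx : ‖x‖ = 1) (hy : ‖y‖ = 1) (hz : ‖z‖ = 1) :
    |triv t x y z| ≤ ∑ i, ∑ j, ∑ k, |t i j k| := by
  have h : ∀ (w : EuclideanSpace ℝ (Fin d)), ‖w‖ = 1 → ∀ i, |w i| ≤ 1 := by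
    intro w hw i
    have := PiLp.norm_apply_le w i
    rwa [hw, Real.norm_eq_abs] at this
  unfold triv
  refine (Finset.abs_sum_le_sum_abs _ _).trans (Finset.sum_le_sum fun i _ => ?_)
  refine (Finset.abs_sum_le_sum_abs _ _).trans (Finset.sum_le_sum fun j _ => ?_)
  refine (Finset.abs_sum_le_sum_abs _ _).trans (Finset.sum_le_sum fun k _ => ?_)
  rw [abs_mul, abs_mul, abs_mul]
  have h1 : |t i j k| * |x i| ≤ |t i j k| * 1 :=
    mul_le_mul_of_nonneg_left (h x hx i) (abs_nonneg _)
  have h2 : |t i j k| * |x i| * |y j| ≤ |t i j k| * 1 * 1 :=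
    mul_le_mul h1 (h y hy j) (abs_nonneg _) (by positivity)
  have h3 : |t i j k| * |x i| * |y j| * |z k| ≤ |t i j k| * 1 * 1 * 1 :=
    mul_le_mul h2 (h z hz k) (abs_nonneg _) (by positivity)
  linarith

theorem triv_eq {d : ℕ} (t : ℕ → ℕ → ℕ → ℝ) (x y z : EuclideanSpace ℝ (Fin d)) (X Y Z : ℕ → ℝ)
    (hX : ∀ i : Fin d, X i = x i) (hY : ∀ i : Fin d, Y i = y i) (hZ : ∀ i : Fin d, Z i = z i) :
    triv (fun i j k : Fin d => t i j k) x y z =
      ∑ i ∈ range d, ∑ j ∈ range d, ∑ k ∈ range d, t i j k * X i * Y j * Z k := by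
  unfold triv
  rw [← Fin.sum_univ_eq_sum_range (fun i => ∑ j ∈ range d, ∑ k ∈ range d, t i j k * X i * Y j * Z k)]
  refine Finset.sum_congr rfl fun i _ => ?_
  rw [← Fin.sum_univ_eq_sum_range (fun j => ∑ k ∈ range d, t i j k * X i * Y j * Z k)]
  refine Finset.sum_congr rfl fun j _ => ?_
  rw [← Fin.sum_univ_eq_sum_range (fun k => t i j k * X i * Y j * Z k)]
  refine Finset.sum_congr rfl fun k _ => ?_
  rw [hX, hY, hZ]

theorem exceed_iff {d : ℕ} (t : ℕ → ℕ → ℕ → ℝ) {σ : ℝ} (hσ : 0 < σ) :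
    σ < spectralNorm (fun i j k : Fin d => t i j k) ↔ Exc d t σ := by
  constructor
  · intro h
    unfold spectralNorm at h
    set s := {r | ∃ x y z : EuclideanSpace ℝ (Fin d), ‖x‖ = 1 ∧ ‖y‖ = 1 ∧ ‖z‖ = 1 ∧
      r = |triv (fun i j k : Fin d => t i j k) x y z|} with hs
    have hne : s.Nonempty := by
      by_contra hne
      rw [Set.not_nonempty_iff_eq_empty] at hne
      rw [hne, Real.sSup_empty] at h
      linarith
    obtain ⟨r, ⟨x, y, z, hx, hy, hz, rfl⟩, hr⟩ := exists_lt_of_lt_csSup hne h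
    obtain ⟨x', hx', hr'⟩ : ∃ x' : EuclideanSpace ℝ (Fin d), ‖x'‖ = 1 ∧
        σ < triv (fun i j k : Fin d => t i j k) x' y z := by
      rcases lt_abs.1 hr with h1 | h1
      · exact ⟨x, hx, h1⟩
      · refine ⟨-x, by rw [norm_neg]; exact hx, ?_⟩
        have : triv (fun i j k : Fin d => t i j k) (-x) y z =
            -triv (fun i j k : Fin d => t i j k) x y z := by
          unfold triv
          simp only [PiLp.neg_apply, mul_neg, neg_mul, Finset.sum_neg_distrib]
        rw [this]
        exact h1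
    rw [norm_eq_one_iff] at hx' hy hz
    let X : ℕ → ℝ := fun i => if h : i < d then x' ⟨i, h⟩ else 0
    let Y : ℕ → ℝ := fun i => if h : i < d then y ⟨i, h⟩ else 0
    let Z : ℕ → ℝ := fun i => if h : i < d then z ⟨i, h⟩ else 0
    have eX : ∀ i : Fin d, X i = x' i := fun i => by simp [X]
    have eY : ∀ i : Fin d, Y i = y i := fun i => by simp [Y]
    have eZ : ∀ i : Fin d, Z i = z i := fun i => by simp [Z]
    refine ⟨X, Y, Z, ?_, ?_, ?_, ?_⟩
    · rw [← Fin.sum_univ_eq_sum_range (fun i => X i ^ 2)]; simpa only [eX] using hx'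
    · rw [← Fin.sum_univ_eq_sum_range (fun i => Y i ^ 2)]; simpa only [eY] using hy
    · rw [← Fin.sum_univ_eq_sum_range (fun i => Z i ^ 2)]; simpa only [eZ] using hz
    · rw [← triv_eq t x' y z X Y Z eX eY eZ]
      exact hr'
  · rintro ⟨X, Y, Z, hX, hY, hZ, h⟩
    set x : EuclideanSpace ℝ (Fin d) := WithLp.toLp 2 fun i => X i with hx
    set y : EuclideanSpace ℝ (Fin d) := WithLp.toLp 2 fun i => Y i with hy
    set z : EuclideanSpace ℝ (Fin d) := WithLp.toLp 2 fun i => Z i with hz
    have nx : ‖x‖ = 1 := by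
      rw [norm_eq_one_iff, ← hX]
      exact Fin.sum_univ_eq_sum_range (fun i => X i ^ 2) d
    have ny : ‖y‖ = 1 := by
      rw [norm_eq_one_iff, ← hY]
      exact Fin.sum_univ_eq_sum_range (fun i => Y i ^ 2) d
    have nz : ‖z‖ = 1 := by
      rw [norm_eq_one_iff, ← hZ]
      exact Fin.sum_univ_eq_sum_range (fun i => Z i ^ 2) d
    rw [← triv_eq t x y z X Y Z (fun _ => rfl) (fun _ => rfl) (fun _ => rfl)] at h
    refine lt_of_lt_of_le (lt_of_lt_of_le h (le_abs_self _)) ?_
    apply le_csSup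
    · refine ⟨∑ i : Fin d, ∑ j : Fin d, ∑ k : Fin d, |t i j k|, ?_⟩
      rintro r ⟨x, y, z, hx, hy, hz, rfl⟩
      exact abs_triv_le _ x y z hx hy hz
    · exact ⟨x, y, z, nx, ny, nz, rfl⟩

theorem exc_congr {d : ℕ} {t t' : ℕ → ℕ → ℕ → ℝ} {σ : ℝ}
    (h : ∀ i < d, ∀ j < d, ∀ k < d, t i j k = t' i j k) : Exc d t σ ↔ Exc d t' σ := by
  unfold Exc
  have key : ∀ x y z : ℕ → ℝ, ∑ i ∈ range d, ∑ j ∈ range d, ∑ k ∈ range d,
      t i j k * x i * y j * z k = ∑ i ∈ range d, ∑ j ∈ range d, ∑ k ∈ range d,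
      t' i j k * x i * y j * z k := by
    intro x y z
    refine Finset.sum_congr rfl fun i hi => Finset.sum_congr rfl fun j hj =>
      Finset.sum_congr rfl fun k hk => ?_
    rw [h i (Finset.mem_range.1 hi) j (Finset.mem_range.1 hj) k (Finset.mem_range.1 hk)]
  simp only [key]

/-! ### The instance -/

/-- The dimension of the tensor. -/
def dimB (S : List ER.Con) : ℕ := nn S + (bforms S).length

/-- The instance of a system: a tensor and a number. -/
def inst (S : List ER.Con) : List (List (List ℚ)) × ℚ :=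
  (tenL (dimB S) (bforms S), (((48 * (gsys (esys S)).length : ℕ) : ℤ) : ℚ))

theorem fok_bforms (S : List ER.Con) (k : ℕ) : FOk (dimB S) ((bforms S).getD k []) := by
  have h : ∀ f ∈ bforms S, FOk (nn S) f := by
    intro f hf
    unfold bforms at hf
    rw [List.mem_cons] at hf
    rcases hf with rfl | hf
    · intro t ht
      rw [List.mem_singleton] at ht
      subst ht
      exact ⟨ui_lt S, ui_lt S⟩
    · exact fok_forms (n := nn S) (gsys_ok (esys S)) f hf
  intro t ht
  have h1 := fok_getD h k t ht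
  unfold dimB
  exact ⟨by omega, by omega⟩

theorem triple_sum (S : List ER.Con) (x y z : ℕ → ℝ) :
    ∑ i ∈ range (dimB S), ∑ j ∈ range (dimB S), ∑ k ∈ range (dimB S),
      (ten (bforms S) i j k : ℝ) * x i * y j * z k =
    ∑ k ∈ range (dimB S), z k * fev x y ((bforms S).getD k []) := by
  generalize hd : dimB S = d
  have h1 : ∀ k, fev x y ((bforms S).getD k []) =
      ∑ i ∈ range d, ∑ j ∈ range d, (ten (bforms S) i j k : ℝ) * x i * y j :=
    fun k => by rw [← hd]; exact (sum_cf (dimB S) _ (fok_bforms S k) x y).symm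
  have h2 : ∀ i, ∑ j ∈ range d, ∑ k ∈ range d,
      (ten (bforms S) i j k : ℝ) * x i * y j * z k =
      ∑ k ∈ range d, ∑ j ∈ range d,
      (ten (bforms S) i j k : ℝ) * x i * y j * z k := fun i => Finset.sum_comm
  rw [Finset.sum_congr rfl (fun i _ => h2 i), Finset.sum_comm]
  refine Finset.sum_congr rfl fun k _ => ?_
  rw [h1, Finset.mul_sum]
  refine Finset.sum_congr rfl fun i _ => ?_
  rw [Finset.mul_sum]
  refine Finset.sum_congr rfl fun j _ => ?_
  ring

theorem sum_fev (S : List ER.Con) (x y : ℕ → ℝ) :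
    ∑ k ∈ range (dimB S), fev x y ((bforms S).getD k []) ^ 2 =
      Pool.Agent.H78R3.TSV.S x y x y (bforms S) := by
  unfold Pool.Agent.H78R3.TSV.S
  rw [← sum_getD (bforms S) (d := dimB S) (by unfold dimB; omega)
    (fun f => fev x y f * fev x y f) (by simp)]
  simp only [sq]

theorem exc_iff (S : List ER.Con) : Sat S ↔ Exc (dimB S)
    (fun i j k => (ten (bforms S) i j k : ℝ)) (48 * ((gsys (esys S)).length : ℝ)) := by
  have hsub : range (nn S) ⊆ range (dimB S) :=
    Finset.range_subset_range.2 (by unfold dimB; omega)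
  have hL : (1100 : ℝ) ≤ (gsys (esys S)).length := by exact_mod_cast length_gsys (esys S)
  constructor
  · intro h
    obtain ⟨x₀, hx₀, hgt⟩ := main_gt S h
    let x : ℕ → ℝ := fun i => if i < nn S then x₀ i else 0
    have hxn : ∀ i < nn S, x i = x₀ i := fun i hi => by simp [x, hi]
    have hxo : ∀ i, nn S ≤ i → x i = 0 := fun i hi => by simp [x, not_lt.2 hi]
    have hx : ∑ i ∈ range (dimB S), x i ^ 2 = 1 := by
      rw [← hx₀]
      symm
      have e : ∑ i ∈ range (nn S), x₀ i ^ 2 = ∑ i ∈ range (nn S), x i ^ 2 :=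
        Finset.sum_congr rfl (fun i hi => by rw [hxn i (Finset.mem_range.1 hi)])
      rw [e]
      apply Finset.sum_subset hsub
      intro i _ hi
      rw [hxo i (not_lt.1 (fun h => hi (Finset.mem_range.2 h)))]
      ring
    have hS : Pool.Agent.H78R3.TSV.S x x x x (bforms S) =
        Pool.Agent.H78R3.TSV.S x₀ x₀ x₀ x₀ (bforms S) := by
      rw [S_bforms, S_bforms]
      have e1 : ∑ i ∈ range (nn S), x i ^ 2 = ∑ i ∈ range (nn S), x₀ i ^ 2 :=
        Finset.sum_congr rfl (fun i hi => by rw [hxn i (Finset.mem_range.1 hi)])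
      have e2 : ∑ i ∈ range (nn S), x i * x i = ∑ i ∈ range (nn S), x₀ i * x₀ i :=
        Finset.sum_congr rfl (fun i hi => by rw [hxn i (Finset.mem_range.1 hi)])
      have e3 : (gsys (esys S)).map (fun g => gev x x g * gev x x g) =
          (gsys (esys S)).map (fun g => gev x₀ x₀ g * gev x₀ x₀ g) := by
        apply List.map_congr_left
        intro g hg
        obtain ⟨⟨a1, a2, a3⟩, ⟨b1, b2, b3⟩, ⟨c1, c2, c3⟩⟩ := gsys_ok (esys S) g hg
        unfold gev tev bev
        rw [hxn _ a2, hxn _ a3, hxn _ b2, hxn _ b3, hxn _ c2, hxn _ c3]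
      rw [e1, e2, e3, hxn _ (ui_lt S)]
    rw [← hS] at hgt
    set s := Pool.Agent.H78R3.TSV.S x x x x (bforms S) with hs
    have hs0 : 0 < s := lt_of_le_of_lt (sq_nonneg _) hgt
    have hr0 : 0 < √s := Real.sqrt_pos.2 hs0
    have hr2 : √s ^ 2 = s := Real.sq_sqrt hs0.le
    refine ⟨x, x, fun k => fev x x ((bforms S).getD k []) / √s, hx, hx, ?_, ?_⟩
    · simp_rw [div_pow, hr2]
      rw [← Finset.sum_div, sum_fev, ← hs, div_self hs0.ne']
    · rw [triple_sum]
      have e : ∑ k ∈ range (dimB S), fev x x ((bforms S).getD k []) / √s *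
          fev x x ((bforms S).getD k []) = √s := by
        have e1 : ∀ k, fev x x ((bforms S).getD k []) / √s * fev x x ((bforms S).getD k []) =
            fev x x ((bforms S).getD k []) ^ 2 / √s := fun k => by ring
        simp_rw [e1]
        rw [← Finset.sum_div, sum_fev, ← hs, div_eq_iff hr0.ne', ← sq, hr2]
      rw [e]
      exact (Real.lt_sqrt (by positivity)).2 hgt
  · rintro ⟨x, y, z, hx, hy, hz, h⟩
    by_contra hS
    rw [triple_sum] at h
    have hx' : ∑ i ∈ range (nn S), x i ^ 2 ≤ 1 := by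
      rw [← hx]
      exact Finset.sum_le_sum_of_subset_of_nonneg hsub (fun _ _ _ => sq_nonneg _)
    have hy' : ∑ i ∈ range (nn S), y i ^ 2 ≤ 1 := by
      rw [← hy]
      exact Finset.sum_le_sum_of_subset_of_nonneg hsub (fun _ _ _ => sq_nonneg _)
    have h1 := main_le S hS x y hx' hy'
    have h2 := Finset.sum_mul_sq_le_sq_mul_sq (range (dimB S)) z
      (fun k => fev x y ((bforms S).getD k []))
    rw [hz, one_mul, sum_fev] at h2
    have h3 := abs_le_of_sq_le_sq (h2.trans h1) (by positivity)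
    have h4 := le_abs_self (∑ k ∈ range (dimB S), z k * fev x y ((bforms S).getD k []))
    linarith [h3, h4]

theorem pos_aux (n : ℕ) (h : 1100 ≤ n) : (0 : ℚ) < (((48 * n : ℕ) : ℤ) : ℚ) := by
  have : 0 < 48 * n := by omega
  exact_mod_cast this

theorem cast_aux (n : ℕ) : (((((48 * n : ℕ) : ℤ) : ℚ)) : ℝ) = 48 * (n : ℝ) := by
  push_cast
  ring

theorem inst_fst (S : List ER.Con) : (inst S).1 = tenL (dimB S) (bforms S) := by
  simp only [inst]

theorem inst_snd (S : List ER.Con) :
    (inst S).2 = (((48 * (gsys (esys S)).length : ℕ) : ℤ) : ℚ) := by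
  simp only [inst]

theorem inst_ok (S : List ER.Con) : IsCube (inst S).1 ∧ 0 < (inst S).2 := by
  have h1 := inst_fst S
  have h2 := inst_snd S
  have h3 := length_gsys (esys S)
  generalize dimB S = d at h1
  generalize bforms S = F at h1
  generalize (gsys (esys S)).length = n at h2 h3
  generalize inst S = q at h1 h2 ⊢
  rw [h1, h2]
  exact ⟨isCube_tenL d F, pos_aux n h3⟩

theorem inst_len (S : List ER.Con) : (inst S).1.length = dimB S := by
  have h1 := inst_fst S
  generalize dimB S = d at h1 ⊢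
  generalize bforms S = F at h1
  generalize inst S = q at h1 ⊢
  rw [h1]
  exact length_tenL d F

theorem inst_cast (S : List ER.Con) :
    (((inst S).2 : ℚ) : ℝ) = 48 * ((gsys (esys S)).length : ℝ) := by
  have h2 := inst_snd S
  generalize (gsys (esys S)).length = n at h2 ⊢
  generalize inst S = q at h2 ⊢
  rw [h2]
  exact cast_aux n

theorem inst_entry (S : List ER.Con) {i j k : ℕ} (hi : i < dimB S) (hj : j < dimB S)
    (hk : k < dimB S) : ((entry (inst S).1 i j k : ℚ) : ℝ) = (ten (bforms S) i j k : ℝ) := by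
  have h1 := inst_fst S
  generalize dimB S = d at h1 hi hj hk
  generalize bforms S = F at h1 ⊢
  generalize inst S = q at h1 ⊢
  rw [h1, entry_tenL hi hj hk]
  generalize ten F i j k = m
  push_cast
  rfl

theorem sat_iff_lt (S : List ER.Con) : Sat S ↔ (((inst S).2 : ℚ) : ℝ) <
    spectralNorm (fun i j k : Fin (inst S).1.length => ((entry (inst S).1 i j k : ℚ) : ℝ)) := by
  have h2 : (0 : ℝ) < (((inst S).2 : ℚ) : ℝ) := by exact_mod_cast (inst_ok S).2
  rw [exceed_iff (fun i j k => ((entry (inst S).1 i j k : ℚ) : ℝ)) h2, exc_iff S, inst_len,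
    inst_cast]
  apply exc_congr
  intro i hi j hj k hk
  exact (inst_entry S hi hj hk).symm

theorem sat_iff_exceed (S : List ER.Con) : Sat S ↔ SpectralNormExceed (inst S) := by
  rw [sat_iff_lt]
  exact ⟨fun h => ⟨(inst_ok S).1, (inst_ok S).2, h⟩, fun h => h.2.2⟩

theorem sat_iff_not_bound (S : List ER.Con) : Sat S ↔ ¬ SpectralNormBound (inst S) := by
  rw [sat_iff_lt]
  constructor
  · intro h h'
    exact absurd h'.2.2 (not_le.2 h)
  · intro h
    by_contra h'
    exact h ⟨(inst_ok S).1, (inst_ok S).2, not_lt.1 h'⟩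

end Pool.Agent.Results.MP_50cd9e_lc.SpectralNormBoundComplete

namespace Pool.Agent.NPC.X246SNB

open Pool.Agent.NPC Pool.Agent.NPC.ER Pool.Agent.H78R3.TSV Pool.Agent.NPC.H78TSV
open Pool.Agent.X246.SNB Pool.Agent.NPC.H670R2 Finset
open Pool.Agent.Results.MP_50cd9e_lc.SpectralNormBoundComplete

section

variable {α : Type} [TEnc α]

theorem upoly_gapK {S : α → List ER.Con} (hS : Poly S) :
    UPoly (fun a => gapK (bsys (S a)).length) :=
  UPoly.add (UPoly.mul (UPoly.const 11) (UPoly.length (poly_bsys hS))) (UPoly.const 7)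

theorem poly_esys {S : α → List ER.Con} (hS : Poly S) : Poly (fun a => esys (S a)) := by
  refine Poly.append (poly_bsys hS) ?_
  refine Poly.map (F := fun a j => ER.Con.mul (ER.ev (bK (S a) + j)) (ER.ev (bK (S a) + j))
    (ER.ev (bK (S a) + j + 1))) (upoly_gapK hS).range ?_
  have h1 : Poly (fun p : α × ℕ => bK (S p.1) + p.2) :=
    Poly.add ((upoly_bK hS).toPoly.comp (Poly.fst Poly.id)) (Poly.snd Poly.id)
  exact poly_con_mul (ER.poly_ev h1) (ER.poly_ev h1) (ER.poly_ev (Poly.succ h1))

theorem poly_slack4 {N r : α → ℕ} (hN : Poly N) (hr : Poly r) :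
    Poly (fun a => slack4 (N a) (r a)) := by
  have h1 := Poly.succ hr
  have h2 : Poly (fun a => N a + 1 + r a) := Poly.add (Poly.succ hN) hr
  exact Poly.pair (Poly.pair (Poly.const 4) (Poly.pair h1 h1))
    (Poly.pair (Poly.pair (Poly.const 1) (Poly.pair h2 h2)) (Poly.const _))

theorem poly_gsys {T : α → List ER.Con} (hT : Poly T) : Poly (fun a => gsys (T a)) := by
  have hV := poly_svars hT
  refine Poly.append (Poly.const _) (Poly.append ?_ ?_)
  · exact Poly.map (F := fun a c => hcon (svars (T a)) c) hT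
      (poly_hcon (hV.comp (Poly.fst Poly.id)) (Poly.snd Poly.id))
  · refine Poly.map (F := fun a r => slack4 (svars (T a)).length r) (UPoly.length hV).range ?_
    exact poly_slack4 ((Poly.length hV).comp (Poly.fst Poly.id)) (Poly.snd Poly.id)

theorem poly_ui {S : α → List ER.Con} (hS : Poly S) : Poly (fun a => ui (S a)) :=
  poly_ix (poly_svars (poly_esys hS))
    (ER.poly_ev (Poly.add (upoly_bK hS).toPoly (upoly_gapK hS).toPoly))

theorem poly_bforms {S : α → List ER.Con} (hS : Poly S) : Poly (fun a => bforms (S a)) := by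
  have hT := poly_esys hS
  exact Poly.cons (Poly.cons (Poly.pair (Poly.const 1) (Poly.pair (poly_ui hS) (poly_ui hS)))
    (Poly.const [])) (poly_forms (upoly_hn hT) (poly_gsys hT))

theorem poly_inst {S : α → List ER.Con} (hS : Poly S) :
    Poly (fun a => Pool.Agent.Results.MP_50cd9e_lc.SpectralNormBoundComplete.inst (S a)) := by
  have hT := poly_esys hS
  have hG := poly_gsys hT
  have hF := poly_bforms hS
  refine Poly.pair (poly_tenL (UPoly.add (upoly_hn hT) (UPoly.length hF)) hF) ?_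
  exact poly_intToRat (Poly.natCast (Poly.mul (Poly.const 48) (Poly.length hG)))

end

/-! ### Membership -/

/-- The value of the trilinear form, as a term. -/
def fT (d : ℕ) : Tm :=
  sumTm ((List.range d).flatMap fun i => (List.range d).flatMap fun j => (List.range d).map fun k =>
    Tm.mul (Tm.mul (Tm.mul (Tm.var (vw d i j k)) (Tm.var (4 * i))) (Tm.var (4 * j + 1)))
      (Tm.var (4 * k + 2)))

/-- The list of the formulas. -/
def fAllE (q : List (List (List ℚ)) × ℚ) : List Fm :=
  fU q.1.length 0 :: fU q.1.length 1 :: fU q.1.length 2 ::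
    eqRat (Tm.var (vs q.1.length)) q.2 ::
    Fm.lt (Tm.var (vs q.1.length)) (fT q.1.length) :: fEnt q.1

/-- The formula for the problem with answer `b` on invalid inputs. -/
def fExc (b : Fm) (q : List (List (List ℚ)) × ℚ) : Fm :=
  bif isCubeB q.1 && isPosB q.2 then conj (fAllE q) else b

theorem sum_flatMap_gen (l : List ℕ) (F : ℕ → List Tm) (v : ℕ → ℝ) :
    ((l.flatMap F).map (Tm.eval v)).sum = (l.map fun i => ((F i).map (Tm.eval v)).sum).sum := by
  induction l with
  | nil => simp
  | cons a l ih => simp only [List.flatMap_cons, List.map_append, List.sum_append, ih,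
      List.map_cons, List.sum_cons]

theorem eval_fT (d : ℕ) (v : ℕ → ℝ) : (fT d).eval v =
    ∑ i ∈ range d, ∑ j ∈ range d, ∑ k ∈ range d,
      v (vw d i j k) * v (4 * i) * v (4 * j + 1) * v (4 * k + 2) := by
  unfold fT
  rw [eval_sumTm, sum_flatMap_gen, sum_list_range]
  refine Finset.sum_congr rfl fun i _ => ?_
  rw [sum_flatMap_gen, sum_list_range]
  refine Finset.sum_congr rfl fun j _ => ?_
  rw [List.map_map, ← sum_list_range]
  rfl

theorem exc_iff_etr (q : List (List (List ℚ)) × ℚ) (h1 : IsCube q.1) (h2 : 0 < q.2) (b : Fm) :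
    (q.2 : ℝ) < spectralNorm (fun i j k : Fin q.1.length => ((entry q.1 i j k : ℚ) : ℝ)) ↔
      ETR (fExc b q) := by
  have h2' : (0 : ℝ) < (q.2 : ℝ) := by exact_mod_cast h2
  rw [exceed_iff (fun i j k => ((entry q.1 i j k : ℚ) : ℝ)) h2']
  unfold fExc
  have hb : (isCubeB q.1 && isPosB q.2) = true := by
    rw [(isCubeB_iff _).2 h1, (isPosB_iff _).2 h2]; rfl
  rw [hb, cond_true]
  unfold ETR
  simp_rw [holds_conj]
  have hall : ∀ v : ℕ → ℝ, (∀ φ ∈ fAllE q, φ.Holds v) ↔ (∑ i ∈ range q.1.length, v (4 * i + 0) ^ 2 = 1 ∧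
      ∑ i ∈ range q.1.length, v (4 * i + 1) ^ 2 = 1 ∧
      ∑ i ∈ range q.1.length, v (4 * i + 2) ^ 2 = 1 ∧ v (vs q.1.length) = (q.2 : ℝ) ∧
      v (vs q.1.length) < (fT q.1.length).eval v ∧
      ∀ i < q.1.length, ∀ j < q.1.length, ∀ k < q.1.length,
        v (vw q.1.length i j k) = ((entry q.1 i j k : ℚ) : ℝ)) := by
    intro v
    unfold fAllE
    simp only [List.forall_mem_cons, holds_fU, holds_fEnt, holds_eqRat, Fm.Holds, Tm.eval]
  simp_rw [hall]
  set d := q.1.length with hd
  constructor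
  · rintro ⟨x, y, z, hx, hy, hz, g1⟩
    let v : ℕ → ℝ := fun n => if n % 4 = 0 then x (n / 4) else if n % 4 = 1 then y (n / 4) else
      if n % 4 = 2 then z (n / 4) else
      if n / 4 = d * d * d then (q.2 : ℝ) else
        ((entry q.1 (n / 4 / d / d) (n / 4 / d % d) (n / 4 % d) : ℚ) : ℝ)
    have v0 : ∀ i, v (4 * i) = x i := by
      intro i
      simp only [v]
      rw [if_pos (by omega)]
      congr 1; omega
    have v0' : ∀ i, v (4 * i + 0) = x i := v0
    have v1 : ∀ i, v (4 * i + 1) = y i := by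
      intro i
      simp only [v]
      rw [if_neg (by omega), if_pos (by omega)]
      congr 1; omega
    have v2 : ∀ i, v (4 * i + 2) = z i := by
      intro i
      simp only [v]
      rw [if_neg (by omega), if_neg (by omega), if_pos (by omega)]
      congr 1; omega
    have v3 : v (vs d) = (q.2 : ℝ) := by
      simp only [v, vs]
      rw [if_neg (by omega), if_neg (by omega), if_neg (by omega), if_pos (by omega)]
    have v4 : ∀ i < d, ∀ j < d, ∀ k < d, v (vw d i j k) = ((entry q.1 i j k : ℚ) : ℝ) := by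
      intro i hi j hj k hk
      have e0 : (4 * ((i * d + j) * d + k) + 3) / 4 = (i * d + j) * d + k := by omega
      have hd0 : 0 < d := by omega
      have e1 : ((i * d + j) * d + k) % d = k := by
        rw [Nat.mul_comm, Nat.mul_add_mod, Nat.mod_eq_of_lt hk]
      have e2 : ((i * d + j) * d + k) / d = i * d + j := by
        rw [Nat.mul_comm, Nat.mul_add_div hd0, Nat.div_eq_of_lt hk, Nat.add_zero]
      have e3 : (i * d + j) % d = j := by
        rw [Nat.mul_comm, Nat.mul_add_mod, Nat.mod_eq_of_lt hj]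
      have e4 : (i * d + j) / d = i := by
        rw [Nat.mul_comm, Nat.mul_add_div hd0, Nat.div_eq_of_lt hj, Nat.add_zero]
      have e5 : (i * d + j) * d + k ≠ d * d * d := by
        have h5 : i * d + j < d * d := by
          calc i * d + j < i * d + d := by omega
            _ = (i + 1) * d := by ring
            _ ≤ d * d := Nat.mul_le_mul_right _ hi
        have h6 : (i * d + j) * d + k < d * d * d := by
          calc (i * d + j) * d + k < (i * d + j) * d + d := by omega
            _ = (i * d + j + 1) * d := by ring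
            _ ≤ d * d * d := Nat.mul_le_mul_right _ h5
        omega
      simp only [v, vw]
      rw [if_neg (by omega), if_neg (by omega), if_neg (by omega), e0, if_neg e5, e2, e4, e1, e3]
    refine ⟨v, ?_, ?_, ?_, v3, ?_, v4⟩
    · simp_rw [v0']; exact hx
    · simp_rw [v1]; exact hy
    · simp_rw [v2]; exact hz
    · rw [v3, eval_fT]
      refine lt_of_lt_of_eq g1 ?_
      refine Finset.sum_congr rfl fun i hi => Finset.sum_congr rfl fun j hj =>
        Finset.sum_congr rfl fun k hk => ?_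
      rw [v4 i (Finset.mem_range.1 hi) j (Finset.mem_range.1 hj) k (Finset.mem_range.1 hk), v0, v1,
        v2]
  · rintro ⟨v, hx, hy, hz, v3, g1, v4⟩
    refine ⟨fun i => v (4 * i), fun i => v (4 * i + 1), fun i => v (4 * i + 2), hx, hy, hz, ?_⟩
    rw [← v3]
    refine lt_of_lt_of_eq g1 ?_
    rw [eval_fT]
    refine Finset.sum_congr rfl fun i hi => Finset.sum_congr rfl fun j hj =>
      Finset.sum_congr rfl fun k hk => ?_
    rw [v4 i (Finset.mem_range.1 hi) j (Finset.mem_range.1 hj) k (Finset.mem_range.1 hk)]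

theorem exceed_iff_etr (q : List (List (List ℚ)) × ℚ) :
    SpectralNormExceed q ↔ ETR (fExc H670R2.ff q) := by
  by_cases hq : IsCube q.1 ∧ 0 < q.2
  · rw [← exc_iff_etr q hq.1 hq.2]
    exact ⟨fun h => h.2.2, fun h => ⟨hq.1, hq.2, h⟩⟩
  · have hb : (isCubeB q.1 && isPosB q.2) = false := by
      rw [Bool.eq_false_iff]
      intro h
      have := Bool.and_eq_true_iff.1 h
      exact hq ⟨(isCubeB_iff _).1 this.1, (isPosB_iff _).1 this.2⟩
    unfold fExc
    rw [hb, cond_false]
    constructor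
    · rintro ⟨h1, h2, -⟩
      exact absurd ⟨h1, h2⟩ hq
    · intro h
      exact absurd h H670R2.not_etr_ff

theorem not_bound_iff_etr (q : List (List (List ℚ)) × ℚ) :
    ¬ SpectralNormBound q ↔ ETR (fExc H670R2.tt q) := by
  by_cases hq : IsCube q.1 ∧ 0 < q.2
  · rw [← exc_iff_etr q hq.1 hq.2]
    constructor
    · intro h
      by_contra h'
      exact h ⟨hq.1, hq.2, not_lt.1 h'⟩
    · intro h h'
      exact absurd h'.2.2 (not_le.2 h)
  · have hb : (isCubeB q.1 && isPosB q.2) = false := by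
      rw [Bool.eq_false_iff]
      intro h
      have := Bool.and_eq_true_iff.1 h
      exact hq ⟨(isCubeB_iff _).1 this.1, (isPosB_iff _).1 this.2⟩
    unfold fExc
    rw [hb, cond_false]
    constructor
    · intro _
      exact ⟨fun _ => 0, H670R2.holds_tt _⟩
    · rintro _ ⟨h1, h2, -⟩
      exact hq ⟨h1, h2⟩

theorem poly_fT {α : Type} [TEnc α] {d : α → ℕ} (hd : UPoly d) : Poly (fun a => fT (d a)) := by
  refine poly_sumTm (Poly.flatMap (F := fun a i => (List.range (d a)).flatMap fun j =>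
    (List.range (d a)).map fun k =>
    Tm.mul (Tm.mul (Tm.mul (Tm.var (vw (d a) i j k)) (Tm.var (4 * i))) (Tm.var (4 * j + 1)))
      (Tm.var (4 * k + 2))) hd.range ?_)
  refine Poly.flatMap (F := fun (p : α × ℕ) j => (List.range (d p.1)).map fun k =>
    Tm.mul (Tm.mul (Tm.mul (Tm.var (vw (d p.1) p.2 j k)) (Tm.var (4 * p.2))) (Tm.var (4 * j + 1)))
      (Tm.var (4 * k + 2))) (hd.range.comp (Poly.fst Poly.id)) ?_
  refine Poly.map (F := fun (p : (α × ℕ) × ℕ) k =>
    Tm.mul (Tm.mul (Tm.mul (Tm.var (vw (d p.1.1) p.1.2 p.2 k)) (Tm.var (4 * p.1.2)))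
      (Tm.var (4 * p.2 + 1))) (Tm.var (4 * k + 2))) (hd.range.comp (Poly.fst (Poly.fst Poly.id))) ?_
  have e1 : Poly (fun p : ((α × ℕ) × ℕ) × ℕ => p.1.1.1) :=
    Poly.fst (Poly.fst (Poly.fst Poly.id))
  have e2 : Poly (fun p : ((α × ℕ) × ℕ) × ℕ => p.1.1.2) :=
    Poly.snd (Poly.fst (Poly.fst Poly.id))
  have e3 : Poly (fun p : ((α × ℕ) × ℕ) × ℕ => p.1.2) := Poly.snd (Poly.fst Poly.id)
  have e4 : Poly (fun p : ((α × ℕ) × ℕ) × ℕ => p.2) := Poly.snd Poly.id
  exact poly_tmul (poly_tmul (poly_tmul (poly_tvar (poly_vw (hd.toPoly.comp e1) e2 e3 e4))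
    (poly_lin0 e2)) (poly_lin e3 1)) (poly_lin e4 2)

theorem poly_fExc (b : Fm) : Poly (fExc b) := by
  have h1 : Poly (fun q : List (List (List ℚ)) × ℚ => q.1) := Poly.fst Poly.id
  have h2 : Poly (fun q : List (List (List ℚ)) × ℚ => q.2) := Poly.snd Poly.id
  have hd : UPoly (fun q : List (List (List ℚ)) × ℚ => q.1.length) := UPoly.length h1
  refine Poly.cond (Poly.and ?_ ?_) (poly_conj ?_) (Poly.const _)
  · refine Poly.all (p := fun (q : List (List (List ℚ)) × ℚ) a =>
      decide (a.length = q.1.length) && a.all fun b => decide (b.length = q.1.length)) h1 ?_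
    refine Poly.and (Poly.decide_eq (Poly.length (Poly.snd Poly.id))
      (hd.toPoly.comp (Poly.fst Poly.id))) ?_
    refine Poly.all (p := fun (r : (List (List (List ℚ)) × ℚ) × List (List ℚ)) b =>
      decide (b.length = r.1.1.length)) (Poly.snd Poly.id) ?_
    exact Poly.decide_eq (Poly.length (Poly.snd Poly.id))
      (hd.toPoly.comp (Poly.fst (Poly.fst Poly.id)))
  · exact Poly.and (Poly.not (poly_isNeg (poly_ratNum h2)))
      (Poly.not (Poly.decide_eq (poly_natAbs (poly_ratNum h2)) (Poly.const 0)))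
  · exact Poly.cons (poly_fU hd 0) (Poly.cons (poly_fU hd 1) (Poly.cons (poly_fU hd 2)
      (Poly.cons (poly_eqRat (poly_tvar (poly_vs hd.toPoly)) h2)
        (Poly.cons (poly_lt (poly_tvar (poly_vs hd.toPoly)) (poly_fT hd)) (poly_fEnt h1)))))

end Pool.Agent.NPC.X246SNB

namespace Pool.Agent.Results.MP_50cd9e_lc.SpectralNormBoundComplete

open Pool.Agent.NPC Pool.Agent.NPC.ER

/-- **Main theorem.** SPECTRAL-NORM-BOUND is `∀ℝ`-complete, and SPECTRAL-NORM-EXCEED is
`∃ℝ`-complete. -/
theorem result : ARComplete (lang SpectralNormBound) ∧ ERComplete (lang SpectralNormExceed) :=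
  ⟨⟨InAR.of_poly (X246SNB.poly_fExc _) X246SNB.not_bound_iff_etr,
    ARHard.of_sys (X246SNB.poly_inst Poly.id) sat_iff_not_bound⟩,
   ⟨ER.InER.of_poly (X246SNB.poly_fExc _) X246SNB.exceed_iff_etr,
    ERHard.of_sys (X246SNB.poly_inst Poly.id) sat_iff_exceed⟩⟩

end Pool.Agent.Results.MP_50cd9e_lc.SpectralNormBoundComplete
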